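import Pool.Agent.Helper45.PQ.StU

/-!
# Project PQ (MP_a1f43d_co), module PBS: standard coordinates of a parabolic form
-/

set_option autoImplicit false

open Module Classical
open scoped LinearAlgebra.Projectivization

namespace Pool.Agent.Helper89.PQ

open Pool.Agent.Helper45.PQ
open Pool.Agent.Helper53.PB

universe u v

private theorem pbs_aux {F : Type u} [Field F] (r : ℕ) : ∀ {V : Type v} [AddCommGroup V] [Module F V]
    [FiniteDimensional F V] (φ : Form F V), φ.kind = Kind.orthogonal → HasParams φ (2 * r + 1) r →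
    ∃ (e f : Fin r → V) (g : V) (c : F), c ≠ 0 ∧ ∀ (x y : Fin r → F) (z : F),
      φ.q (∑ i, x i • e i + ∑ i, y i • f i + z • g) = ∑ i, x i * y i + c * (z * z) := by
  induction r with
  | zero =>
    intro V _ _ _ φ hφ hp
    have h1 : finrank F V = 1 := by rw [hp.1]
    obtain ⟨g, hg⟩ : ∃ g : V, g ≠ 0 := by
      have : Nontrivial V := Module.nontrivial_of_finrank_pos (R := F) (by rw [h1]; exact one_pos)
      exact exists_ne 0
    refine ⟨Fin.elim0, Fin.elim0, g, φ.q g, fun h0 => ?_, fun x y z => ?_⟩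
    · have hs : φ.toPolar.sing g := (orth_sing φ hφ g).2 h0
      obtain ⟨U, hU, hgU⟩ := Polar.exists_gen_ge (span_ts hs)
      have h2 : finrank F U = 0 := class_gen hp U hU
      have h3 : U = ⊥ := Submodule.finrank_eq_zero.1 h2
      have h4 : g ∈ U := hgU (Submodule.mem_span_singleton_self _)
      rw [h3, Submodule.mem_bot] at h4
      exact hg h4
    · simp only [Finset.univ_eq_empty, Finset.sum_empty, zero_add]
      rw [orth_smul φ hφ, mul_comm]
  | succ r ih =>
    intro V _ _ _ φ hφ hp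
    obtain ⟨v, hv0, hv⟩ := exists_sing_of_rank hp
    obtain ⟨w0, hw0⟩ := exists_pair φ hv hv0
    obtain ⟨c, hc⟩ : ∃ c, c = φ.f w0 v := ⟨_, rfl⟩
    rw [← hc] at hw0
    have hqv : φ.q v = 0 := (orth_sing φ hφ v).1 hv
    have hvv : φ.f v v = 0 := φ.toPolar.sing_self v hv
    obtain ⟨w, hw⟩ : ∃ w, w = c⁻¹ • w0 + (-(c⁻¹ * c⁻¹ * φ.q w0)) • v := ⟨_, rfl⟩
    have hwv : φ.f w v = 1 := by
      rw [hw, orth_f_add φ hφ, orth_f_smul φ hφ, orth_f_smul φ hφ, hvv, mul_zero, add_zero, ← hc,
        inv_mul_cancel₀ hw0]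
    have hqw : φ.q w = 0 := by
      rw [hw, orth_add φ hφ, orth_smul φ hφ, orth_smul φ hφ, hqv, mul_zero, add_zero, map_smul,
        orth_f_smul φ hφ, ← hc, smul_eq_mul]
      field_simp
      ring
    have hwv0 : φ.f w v ≠ 0 := by
      rw [hwv]
      exact one_ne_zero
    obtain ⟨e, f, g, d, hd, hef⟩ := ih (resForm φ hv hwv0)
      (by
        unfold resForm
        rw [Form.restrict_kind, hφ])
      (resForm_params φ hv hwv0 (d := 2 * r + 1) hp)
    refine ⟨Fin.cons v (fun i => (e i : V)), Fin.cons w (fun i => (f i : V)), (g : V), d, hd,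
      fun x y z => ?_⟩
    rw [Fin.sum_univ_succ, Fin.sum_univ_succ, Fin.sum_univ_succ]
    simp only [Fin.cons_zero, Fin.cons_succ]
    obtain ⟨u, hu⟩ : ∃ u : perp2 φ v w, u = ∑ i : Fin r, x i.succ • e i + ∑ i : Fin r,
      y i.succ • f i + z • g := ⟨_, rfl⟩
    have hu2 : (u : V) = ∑ i : Fin r, x i.succ • (e i : V) + ∑ i : Fin r, y i.succ • (f i : V)
        + z • (g : V) := by
      rw [hu]
      simp
    have hqu : φ.q u = ∑ i : Fin r, x i.succ * y i.succ + d * (z * z) := by
      rw [← hef (fun i => x i.succ) (fun i => y i.succ) z, ← hu]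
      unfold resForm
      rw [restrict_q]
    have hre : x 0 • v + ∑ i : Fin r, x i.succ • (e i : V) +
        (y 0 • w + ∑ i : Fin r, y i.succ • (f i : V)) + z • (g : V) = (x 0 • v + y 0 • w) + u := by
      rw [hu2]
      abel
    have hfu : φ.f (x 0 • v + y 0 • w) u = 0 := by
      have h1 : φ.f v u = 0 := u.2.1
      have h2 : φ.f w u = 0 := u.2.2
      rw [orth_f_add φ hφ, orth_f_smul φ hφ, orth_f_smul φ hφ, h1, h2, mul_zero, mul_zero,
        add_zero]
    rw [hre, orth_add φ hφ, hfu, add_zero, hqu, orth_add φ hφ, orth_smul φ hφ, orth_smul φ hφ,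
      hqv, hqw, mul_zero, mul_zero, zero_add, zero_add, orth_f_smul φ hφ, map_smul,
      orth_f_comm φ hφ, hwv, smul_eq_mul, mul_one, add_assoc]

theorem hPBS : StPBS.{u, v} := by
  intro F _ r V _ _ _ φ hφ hp
  exact pbs_aux r φ hφ hp

end Pool.Agent.Helper89.PQ
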