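import Pool.Agent.Helper45.PQ.StA

/-!
# Project PQ (MP_a1f43d_co), module HSM: there are few heavy points
-/

set_option autoImplicit false

open Module Classical
open scoped LinearAlgebra.Projectivization

namespace Pool.Agent.Helper89.PQ

open Pool.Agent.Helper45.PQ

universe u v

private theorem pow_big (h : ℕ) (hh : 4 ≤ h) : 6 * (44 : ℚ) ^ h + 6 < (81 : ℚ) ^ h := by
  induction h, hh using Nat.le_induction with
  | base => norm_num
  | succ n hn ih =>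
    have h0 : (0 : ℚ) < (44 : ℚ) ^ n := by positivity
    rw [pow_succ, pow_succ]
    nlinarith

private theorem num_ineq (h : ℕ) (h1 : 1 ≤ h) (q : ℚ) (hq : q = 3 ^ h) :
    6 * (44 : ℚ) ^ h + 6 < q ^ 4 + 10 * q ^ 3 - 2 * q ^ 2 - 2 * q + 4 := by
  have hcases : h = 1 ∨ h = 2 ∨ h = 3 ∨ 4 ≤ h := by omega
  rcases hcases with rfl | rfl | rfl | hh
  · rw [hq]; norm_num
  · rw [hq]; norm_num
  · rw [hq]; norm_num
  · have h2 := pow_big h hh
    have h3 : q ^ 4 = (81 : ℚ) ^ h := by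
      rw [hq, ← pow_mul, mul_comm, pow_mul]; norm_num
    have h4 : (1 : ℚ) ≤ q := by
      rw [hq]; exact one_le_pow₀ (by norm_num)
    have h5 : q ^ 2 ≤ q ^ 3 := pow_le_pow_right₀ h4 (by norm_num)
    have h6 : q ≤ q ^ 3 := by
      calc q = q ^ 1 := (pow_one q).symm
        _ ≤ q ^ 3 := pow_le_pow_right₀ h4 (by norm_num)
    have h7 : (0 : ℚ) ≤ q ^ 3 := by positivity
    rw [h3]
    linarith

theorem hHSM (h1 : StTBD.{u, v}) : StHSM.{u, v} := by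
  intro F _ _ V _ _ _ Q T H m h j c
  by_contra hcon
  have hT := h1 F V Q T H m h j c
  obtain ⟨q, hq⟩ : ∃ q : ℚ, q = (Nat.card F : ℚ) := ⟨_, rfl⟩
  obtain ⟨t, ht⟩ : ∃ t : ℚ, t = (H.card : ℚ) := ⟨_, rfl⟩
  obtain ⟨J, hJ⟩ : ∃ J : ℚ, J = (j : ℚ) := ⟨_, rfl⟩
  have hq3 : q = 3 ^ h := by rw [hq, c.hq]; push_cast; rfl
  have hq1 : (3 : ℚ) ≤ q := by
    rw [hq3]
    calc (3 : ℚ) = 3 ^ 1 := (pow_one _).symm
      _ ≤ 3 ^ h := pow_le_pow_right₀ (by norm_num) c.h1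
  have hjq : J + 2 ≤ q := by
    rw [hJ, hq]
    exact_mod_cast c.hj
  have hJ0 : (0 : ℚ) ≤ J := by rw [hJ]; positivity
  have h2t : q + 2 ≤ 2 * t := by
    rw [hq, ht]
    have : Nat.card F + 2 ≤ 2 * H.card := by omega
    exact_mod_cast this
  have hsum : ∑ R ∈ H, (2 * (m R : ℚ) - 1) / ((m R : ℚ) + 1) ≤ 2 * t := by
    have h3 : ∀ R ∈ H, (2 * (m R : ℚ) - 1) / ((m R : ℚ) + 1) ≤ 2 := by
      intro R _
      have h4 : (0 : ℚ) < (m R : ℚ) + 1 := by positivity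
      rw [div_le_iff₀ h4]
      linarith
    calc ∑ R ∈ H, (2 * (m R : ℚ) - 1) / ((m R : ℚ) + 1) ≤ ∑ _R ∈ H, (2 : ℚ) := Finset.sum_le_sum h3
      _ = 2 * t := by rw [Finset.sum_const, nsmul_eq_mul, ht, mul_comm]
  rw [← hq, ← ht, ← hJ] at hT
  have hT2 : (2 * (q - J) + t) * q ^ 3 + 2 * (1 + J) ≤ 3 * ((44 : ℚ) ^ h + 1) + (1 + J) * (2 * t) := by
    refine hT.trans ?_
    have : (1 + J) * ∑ R ∈ H, (2 * (m R : ℚ) - 1) / ((m R : ℚ) + 1) ≤ (1 + J) * (2 * t) :=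
      mul_le_mul_of_nonneg_left hsum (by linarith)
    linarith
  have hc3 : (0 : ℚ) ≤ q ^ 3 := by positivity
  have ha : 4 * q ^ 3 ≤ 2 * (q - J) * q ^ 3 := by
    have : (4 : ℚ) ≤ 2 * (q - J) := by linarith
    exact mul_le_mul_of_nonneg_right this hc3
  have hb : (2 * t - 2) * (1 + J) ≤ (2 * t - 2) * (q - 1) :=
    mul_le_mul_of_nonneg_left (by linarith) (by linarith)
  have hc : t * (q ^ 3 - 2 * q + 2) ≤ 3 * (44 : ℚ) ^ h + 3 - 4 * q ^ 3 := by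
    have e1 : (2 * (q - J) + t) * q ^ 3 = 2 * (q - J) * q ^ 3 + t * q ^ 3 := by ring
    have e2 : t * (q ^ 3 - 2 * q + 2) = t * q ^ 3 - 2 * t * (q - 1) := by ring
    have e3 : (2 * t - 2) * (q - 1) = 2 * t * (q - 1) - 2 * (q - 1) := by ring
    have e4 : (2 * t - 2) * (1 + J) = (1 + J) * (2 * t) - 2 * (1 + J) := by ring
    rw [e1] at hT2
    rw [e3, e4] at hb
    rw [e2]
    linarith
  have hpos : (0 : ℚ) ≤ q ^ 3 - 2 * q + 2 := by
    have h8 : q * 9 ≤ q ^ 3 := by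
      have e : q ^ 3 = q * (q * q) := by ring
      rw [e]
      have : (9 : ℚ) ≤ q * q := by nlinarith
      exact mul_le_mul_of_nonneg_left this (by linarith)
    linarith
  have hd : (q + 2) * (q ^ 3 - 2 * q + 2) ≤ 2 * t * (q ^ 3 - 2 * q + 2) :=
    mul_le_mul_of_nonneg_right h2t hpos
  have e5 : (q + 2) * (q ^ 3 - 2 * q + 2) = q ^ 4 + 2 * q ^ 3 - 2 * q ^ 2 - 2 * q + 4 := by ring
  have e6 : 2 * t * (q ^ 3 - 2 * q + 2) = 2 * (t * (q ^ 3 - 2 * q + 2)) := by ring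
  have hn := num_ineq h c.h1 q hq3
  rw [e5, e6] at hd
  linarith

end Pool.Agent.Helper89.PQ
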